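import Mathlib

open MeasureTheory ProbabilityTheory Filter Asymptotics
open scoped Topology

namespace Pool.Agent.Results.MP_b3d828_pr.Disproof

/-- The set of pairs `e ∈ ([n] choose 2)`: unordered pairs of distinct elements of `Fin n`. -/
abbrev Pair (n : ℕ) : Type := {e : Sym2 (Fin n) // ¬ e.IsDiag}

/-- `G ∼ G_{n,p,d}`: on the probability space `(Ω, μ)`, `G` is a random simple graph on `Fin n`,
each pair is an edge with probability `p`, and the edge indicators have a dependency graph `D` of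
maximum degree at most `d` (each `X_e` is independent of the family of all `X_f`
with `f ≠ e` not adjacent to `e` in `D`). -/
structure IsDependentRandomGraph {Ω : Type} [MeasurableSpace Ω] (μ : Measure Ω) (n d : ℕ) (p : ℝ)
    (G : Ω → SimpleGraph (Fin n)) : Prop where
  isProb : IsProbabilityMeasure μ
  measurable : ∀ e : Pair n, MeasurableSet {ω | e.1 ∈ (G ω).edgeSet}
  edge_prob : ∀ e : Pair n, μ {ω | e.1 ∈ (G ω).edgeSet} = ENNReal.ofReal p
  dependency : ∃ D : SimpleGraph (Pair n),
    (∀ e : Pair n, (D.neighborSet e).ncard ≤ d) ∧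
    ∀ e : Pair n, IndepFun (fun ω => e.1 ∈ (G ω).edgeSet)
      (fun ω (f : {f : Pair n // f ≠ e ∧ ¬ D.Adj e f}) => f.1.1 ∈ (G ω).edgeSet) μ

section Construction

/-- Bernoulli measure on `Bool`. -/
noncomputable def bern (p : ℝ) : Measure Bool :=
  ENNReal.ofReal p • Measure.dirac true + ENNReal.ofReal (1 - p) • Measure.dirac false

lemma bern_true (p : ℝ) : bern p {true} = ENNReal.ofReal p := by
  simp [bern]

lemma bern_false (p : ℝ) : bern p {false} = ENNReal.ofReal (1 - p) := by
  simp [bern]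

lemma bern_univ {p : ℝ} (h0 : 0 ≤ p) (h1 : p ≤ 1) : bern p Set.univ = 1 := by
  simp only [bern, Measure.coe_add, Measure.coe_smul, Pi.add_apply, Pi.smul_apply, measure_univ,
    smul_eq_mul, mul_one]
  rw [← ENNReal.ofReal_add h0 (by linarith)]
  simp

lemma bern_isProb {p : ℝ} (h0 : 0 ≤ p) (h1 : p ≤ 1) : IsProbabilityMeasure (bern p) :=
  ⟨bern_univ h0 h1⟩

variable {Γ : Type} [Fintype Γ]

/-- product Bernoulli measure. -/
noncomputable def prodBern (Γ : Type) [Fintype Γ] (p : ℝ) : Measure (Γ → Bool) :=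
  Measure.pi (fun _ => bern p)

lemma prodBern_isProb {p : ℝ} (h0 : 0 ≤ p) (h1 : p ≤ 1) :
    IsProbabilityMeasure (prodBern Γ p) := by
  have := bern_isProb h0 h1
  unfold prodBern; infer_instance

variable [DecidableEq Γ]

lemma prodBern_apply_true {p : ℝ} (h0 : 0 ≤ p) (h1 : p ≤ 1) (g : Γ) :
    prodBern Γ p {ω | ω g = true} = ENNReal.ofReal p := by
  have := bern_isProb h0 h1
  have : {ω : Γ → Bool | ω g = true} =
      Set.univ.pi (fun g' => if g' = g then {true} else Set.univ) := by
    ext ω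
    simp only [Set.mem_ofPred_eq, Set.mem_pi, Set.mem_univ, forall_const]
    constructor
    · intro h g'
      by_cases hg : g' = g
      · subst hg; simp [h]
      · simp [hg]
    · intro h
      have := h g
      simpa using this
  rw [this, prodBern, Measure.pi_pi]
  rw [Finset.prod_eq_single g]
  · simp [bern_true]
  · intro b _ hb
    rw [if_neg hb]
    exact bern_univ h0 h1
  · simp

lemma prodBern_all_false {p : ℝ} (h0 : 0 ≤ p) (h1 : p ≤ 1) (S : Finset Γ) :
    prodBern Γ p {ω | ∀ g ∈ S, ω g = false} = ENNReal.ofReal ((1 - p) ^ S.card) := by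
  have := bern_isProb h0 h1
  have : {ω : Γ → Bool | ∀ g ∈ S, ω g = false} =
      Set.univ.pi (fun g' => if g' ∈ S then {false} else Set.univ) := by
    ext ω
    simp only [Set.mem_ofPred_eq, Set.mem_pi, Set.mem_univ, forall_const]
    constructor
    · intro h g'
      by_cases hg : g' ∈ S
      · simp [hg, h g' hg]
      · simp [hg]
    · intro h g hg
      have := h g
      simpa [hg] using this
  rw [this, prodBern, Measure.pi_pi]
  have h2 : ∀ g : Γ, bern p (if g ∈ S then {false} else Set.univ) =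
      if g ∈ S then ENNReal.ofReal (1 - p) else 1 := by
    intro g
    split_ifs
    · exact bern_false p
    · exact bern_univ h0 h1
  simp_rw [h2]
  rw [Finset.prod_ite_mem, Finset.univ_inter, Finset.prod_const, ENNReal.ofReal_pow (by linarith)]

/-- bound for the probability that all the coins along an injective family are off -/
lemma prodBern_all_false_le {p : ℝ} (h0 : 0 ≤ p) (h1 : p ≤ 1) {k : ℕ} {ι : Type} [Fintype ι]
    (hk : k ≤ Fintype.card ι) (h : ι → Γ) (hinj : Function.Injective h) :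
    prodBern Γ p {ω | ∀ i, ω (h i) = false} ≤ ENNReal.ofReal ((1 - p) ^ k) := by
  classical
  have h3 : {ω : Γ → Bool | ∀ i, ω (h i) = false} =
      {ω | ∀ g ∈ Finset.univ.image h, ω g = false} := by
    ext ω; simp
  rw [h3, prodBern_all_false h0 h1, Finset.card_image_of_injective _ hinj]
  apply ENNReal.ofReal_le_ofReal
  exact pow_le_pow_of_le_one (by linarith) (by linarith) (by simpa using hk)

lemma prodBern_indep {p : ℝ} (h0 : 0 ≤ p) (h1 : p ≤ 1) {κ : Type}
    (g : Γ) (h : κ → Γ) (hh : ∀ k, h k ≠ g) :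
    IndepFun (fun ω : Γ → Bool => ω g = true) (fun ω (k : κ) => ω (h k) = true)
      (prodBern Γ p) := by
  have := bern_isProb h0 h1
  have hi : iIndepFun (fun (i : Γ) (ω : Γ → Bool) => ω i) (prodBern Γ p) := by
    unfold prodBern
    exact iIndepFun_pi (X := fun (i : Γ) (b : Bool) => b) (fun i => measurable_id.aemeasurable)
  have h2 := hi.indepFun_finset ({g} : Finset Γ) (Finset.univ.erase g)
    (by simp) (fun i => measurable_pi_apply i)
  have h3 := h2.comp
    (φ := fun (x : ↥({g} : Finset Γ) → Bool) => x ⟨g, by simp⟩ = true)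
    (ψ := fun (x : ↥(Finset.univ.erase g) → Bool) (k : κ) =>
      x ⟨h k, by simp [hh k]⟩ = true)
    (measurable_of_countable _)
    (by
      apply measurable_pi_lambda
      intro k
      exact measurable_of_countable _)
  exact h3

end Construction

section Graph

variable {n M : ℕ}

/-- residue class of a vertex modulo `M`. -/
def cls (hM : 0 < M) (v : Fin n) : Fin M := ⟨v.val % M, Nat.mod_lt _ hM⟩

/-- index of the group of edges containing the pair `{u, v}`. -/
def grp (hM : 0 < M) (u v : Fin n) : (Fin n × Fin M) ⊕ Sym2 (Fin n) :=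
  if v.val % 3 = (u.val + 1) % 3 then Sum.inl (u, cls hM v)
  else if u.val % 3 = (v.val + 1) % 3 then Sum.inl (v, cls hM u)
  else Sum.inr s(u, v)

lemma grp_symm (hM : 0 < M) (u v : Fin n) : grp hM u v = grp hM v u := by
  unfold grp
  by_cases h1 : v.val % 3 = (u.val + 1) % 3
  · have h2 : ¬ (u.val % 3 = (v.val + 1) % 3) := by omega
    simp [h1, h2]
  · by_cases h2 : u.val % 3 = (v.val + 1) % 3
    · simp [h1, h2]
    · simp [h1, h2, Sym2.eq_swap]

/-- the group of an unordered pair -/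
def phi (hM : 0 < M) (e : Sym2 (Fin n)) : (Fin n × Fin M) ⊕ Sym2 (Fin n) :=
  Sym2.lift ⟨grp hM, grp_symm hM⟩ e

lemma phi_mk (hM : 0 < M) (u v : Fin n) : phi hM s(u, v) = grp hM u v := rfl

lemma phi_inl (hM : 0 < M) {f : Sym2 (Fin n)} {u : Fin n} {c : Fin M}
    (h : phi hM f = Sum.inl (u, c)) : ∃ w, f = s(u, w) ∧ cls hM w = c := by
  induction f using Sym2.ind with
  | _ a b =>
    rw [phi_mk] at h
    unfold grp at h
    split_ifs at h with h1 h2
    · simp only [Sum.inl.injEq, Prod.mk.injEq] at h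
      exact ⟨b, by rw [h.1], h.2⟩
    · simp only [Sum.inl.injEq, Prod.mk.injEq] at h
      exact ⟨a, by rw [h.1]; exact Sym2.eq_swap, h.2⟩

lemma phi_inr (hM : 0 < M) {f x : Sym2 (Fin n)}
    (h : phi hM f = Sum.inr x) : f = x := by
  induction f using Sym2.ind with
  | _ a b =>
    rw [phi_mk] at h
    unfold grp at h
    split_ifs at h with h1 h2
    simpa using h

/-- the random graph -/
def gr (hM : 0 < M) (ω : (Fin n × Fin M) ⊕ Sym2 (Fin n) → Bool) : SimpleGraph (Fin n) where
  Adj u v := u ≠ v ∧ ω (grp hM u v) = true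
  symm := ⟨fun _ _ h => ⟨h.1.symm, by rw [grp_symm]; exact h.2⟩⟩
  loopless := ⟨fun _ h => h.1 rfl⟩

lemma gr_adj (hM : 0 < M) (ω : (Fin n × Fin M) ⊕ Sym2 (Fin n) → Bool) (u v : Fin n) :
    (gr hM ω).Adj u v ↔ u ≠ v ∧ ω (grp hM u v) = true := Iff.rfl

lemma mem_edgeSet_gr (hM : 0 < M) (ω : (Fin n × Fin M) ⊕ Sym2 (Fin n) → Bool) (e : Pair n) :
    e.1 ∈ (gr hM ω).edgeSet ↔ ω (phi hM e.1) = true := by
  obtain ⟨e, he⟩ := e
  induction e using Sym2.ind with
  | _ a b =>
    simp only [Sym2.mk_isDiag_iff] at he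
    simp [gr_adj, phi_mk, he]

/-- the dependency graph: two different pairs are adjacent when they are in the same group. -/
def depGraph (n : ℕ) (hM : 0 < M) : SimpleGraph (Pair n) where
  Adj e f := e ≠ f ∧ phi hM e.1 = phi hM f.1
  symm := ⟨fun _ _ h => ⟨h.1.symm, h.2.symm⟩⟩
  loopless := ⟨fun _ h => h.1 rfl⟩

lemma depGraph_adj (hM : 0 < M) (e f : Pair n) :
    (depGraph n hM).Adj e f ↔ e ≠ f ∧ phi hM e.1 = phi hM f.1 := Iff.rfl

lemma group_ncard (hM : 0 < M) (e : Pair n) :
    {f : Pair n | phi hM e.1 = phi hM f.1}.ncard ≤ n / M + 1 := by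
  rcases he : phi hM e.1 with ⟨u, c⟩ | x
  · -- star group
    have h1 : (fun f : Pair n => f.1.map Fin.val) ''
        {f : Pair n | Sum.inl (u, c) = phi hM f.1} ⊆
        (fun i : ℕ => s(u.val, i * M + c.val)) '' ((Finset.range (n / M + 1) : Finset ℕ) : Set ℕ) := by
      rintro _ ⟨f, hf, rfl⟩
      obtain ⟨w, hw1, hw2⟩ := phi_inl hM hf.symm
      refine ⟨w.val / M, ?_, ?_⟩
      · simp only [Finset.coe_range, Set.mem_Iio]
        have := Nat.div_le_div_right (c := M) w.2.le
        omega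
      · simp only [hw1, Sym2.map_mk]
        have h5 : w.val % M = c.val := by rw [← hw2]; rfl
        have := Nat.div_add_mod w.val M
        rw [mul_comm] at this
        have h6 : w.val / M * M + c.val = w.val := by omega
        rw [h6]
    have hinj : Function.Injective (fun f : Pair n => f.1.map Fin.val) := by
      intro a b hab
      exact Subtype.ext (Sym2.map.injective Fin.val_injective hab)
    calc {f : Pair n | Sum.inl (u, c) = phi hM f.1}.ncard
        = ((fun f : Pair n => f.1.map Fin.val) ''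
            {f : Pair n | Sum.inl (u, c) = phi hM f.1}).ncard := by
          rw [Set.ncard_image_of_injective _ hinj]
      _ ≤ ((fun i : ℕ => s(u.val, i * M + c.val)) ''
            ((Finset.range (n / M + 1) : Finset ℕ) : Set ℕ)).ncard :=
          Set.ncard_le_ncard h1 ((Finset.finite_toSet _).image _)
      _ ≤ ((Finset.range (n / M + 1) : Finset ℕ) : Set ℕ).ncard :=
          Set.ncard_image_le (Finset.finite_toSet _)
      _ = n / M + 1 := by rw [Set.ncard_coe_finset]; simp
  · have h1 : {f : Pair n | Sum.inr x = phi hM f.1} ⊆ {e} := by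
      intro f hf
      have h2 := phi_inr hM hf.symm
      have h3 := phi_inr hM he
      exact Subtype.ext (h2.trans h3.symm)
    calc {f : Pair n | Sum.inr x = phi hM f.1}.ncard ≤ ({e} : Set (Pair n)).ncard :=
          Set.ncard_le_ncard h1 (Set.finite_singleton e)
      _ = 1 := Set.ncard_singleton e
      _ ≤ n / M + 1 := Nat.le_add_left 1 _

lemma depGraph_degree (hM : 0 < M) (e : Pair n) :
    ((depGraph n hM).neighborSet e).ncard ≤ n / M := by
  have h1 : (depGraph n hM).neighborSet e = {f : Pair n | phi hM e.1 = phi hM f.1} \ {e} := by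
    ext f
    simp only [SimpleGraph.mem_neighborSet, depGraph_adj, Set.mem_sdiff, Set.mem_ofPred_eq,
      Set.mem_singleton_iff]
    constructor
    · rintro ⟨h, h'⟩; exact ⟨h', fun h2 => h h2.symm⟩
    · rintro ⟨h, h'⟩; exact ⟨fun h2 => h' h2.symm, h⟩
  have h2 := group_ncard hM e
  have h3 := Set.ncard_sdiff_singleton_add_one (a := e)
    (s := {f : Pair n | phi hM e.1 = phi hM f.1}) rfl (Set.toFinite _)
  rw [h1]
  omega

lemma gr_isDependent (hM : 0 < M) {d : ℕ} (hd : n / M ≤ d) {p : ℝ} (h0 : 0 ≤ p) (h1 : p ≤ 1) :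
    IsDependentRandomGraph (prodBern ((Fin n × Fin M) ⊕ Sym2 (Fin n)) p) n d p (gr hM) where
  isProb := prodBern_isProb h0 h1
  measurable e := (Set.toFinite _).measurableSet
  edge_prob e := by
    simp only [mem_edgeSet_gr]
    exact prodBern_apply_true h0 h1 _
  dependency := by
    refine ⟨depGraph n hM, fun e => (depGraph_degree hM e).trans hd, fun e => ?_⟩
    simp only [mem_edgeSet_gr]
    apply prodBern_indep h0 h1 (phi hM e.1)
      (fun (f : {f : Pair n // f ≠ e ∧ ¬ (depGraph n hM).Adj e f}) => phi hM f.1.1)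
    rintro ⟨f, hf1, hf2⟩ h
    exact hf2 ⟨hf1.symm, h.symm⟩

/-- deterministic connectivity criterion -/
lemma gr_connected (hM : 0 < M) (h3 : 3 ∣ M) (hn : M ≤ n)
    (ω : (Fin n × Fin M) ⊕ Sym2 (Fin n) → Bool)
    (E1 : ∀ c : Fin M, ∃ u : Fin n, c.val % 3 = (u.val + 1) % 3 ∧ ω (Sum.inl (u, c)) = true)
    (E2 : ∀ c c' : Fin M, c ≠ c' → c.val % 3 = c'.val % 3 →
      ∃ u v : Fin n, cls hM u = c ∧ cls hM v = c' ∧ ω (Sum.inr s(u, v)) = true) :
    (gr hM ω).Connected := by
  have hcls : ∀ v : Fin n, (cls hM v).val % 3 = v.val % 3 := by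
    intro v
    simp only [cls]
    exact Nat.mod_mod_of_dvd _ h3
  choose hub hub1 hub2 using E1
  have hadj : ∀ w : Fin n, (gr hM ω).Adj (hub (cls hM w)) w := by
    intro w
    have h := hub1 (cls hM w)
    rw [hcls] at h
    refine ⟨?_, ?_⟩
    · intro he
      rw [he] at h
      omega
    · unfold grp
      rw [if_pos h]
      exact hub2 _
  have hsame : ∀ v w : Fin n, cls hM v = cls hM w → (gr hM ω).Reachable v w := by
    intro v w h
    have h1 := (hadj v).symm.reachable
    have h2 := (hadj w).reachable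
    rw [h] at h1
    exact h1.trans h2
  have hpart : ∀ v w : Fin n, v.val % 3 = w.val % 3 → (gr hM ω).Reachable v w := by
    intro v w h
    by_cases hc : cls hM v = cls hM w
    · exact hsame v w hc
    · obtain ⟨u, u', hu, hu', hω⟩ := E2 _ _ hc (by rw [hcls, hcls, h])
      have hu3 : u.val % 3 = v.val % 3 := by rw [← hcls, hu, hcls]
      have hu3' : u'.val % 3 = w.val % 3 := by rw [← hcls, hu', hcls]
      have hadj2 : (gr hM ω).Adj u u' := by
        refine ⟨?_, ?_⟩
        · intro he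
          apply hc
          rw [← hu, ← hu', he]
        · unfold grp
          rw [if_neg (by omega), if_neg (by omega)]
          exact hω
      exact ((hsame v u hu.symm).trans hadj2.reachable).trans (hsame u' w hu')
  have hstep : ∀ v w : Fin n, w.val % 3 = (v.val + 1) % 3 → (gr hM ω).Reachable v w := by
    intro v w h
    have h1 := hub1 (cls hM w)
    rw [hcls] at h1
    exact (hpart v (hub (cls hM w)) (by omega)).trans (hadj w).reachable
  rw [SimpleGraph.connected_iff]
  refine ⟨?_, ⟨⟨0, by omega⟩⟩⟩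
  intro v w
  by_cases h1 : v.val % 3 = w.val % 3
  · exact hpart v w h1
  · by_cases h2 : w.val % 3 = (v.val + 1) % 3
    · exact hstep v w h2
    · exact (hstep w v (by omega)).symm

/-- vertex number `i` of the class `c` -/
def vtx (c : Fin M) (i : Fin (n / M)) : Fin n :=
  ⟨i.val * M + c.val, by
    have h1 : (i.val + 1) * M ≤ n / M * M := Nat.mul_le_mul_right _ i.2
    have h2 := Nat.div_mul_le_self n M
    have h3 := c.2
    have h4 : (i.val + 1) * M = i.val * M + M := by ring
    omega⟩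

lemma cls_vtx (hM : 0 < M) (c : Fin M) (i : Fin (n / M)) : cls hM (vtx c i) = c := by
  apply Fin.ext
  simp only [cls, vtx]
  rw [mul_comm, Nat.mul_add_mod]
  exact Nat.mod_eq_of_lt c.2

lemma vtx_injective (c : Fin M) (hM : 0 < M) : Function.Injective (vtx (n := n) c) := by
  intro i j h
  have h1 : i.val * M + c.val = j.val * M + c.val := congrArg Fin.val h
  have h2 : i.val * M = j.val * M := by omega
  exact Fin.ext (Nat.eq_of_mul_eq_mul_right hM h2)

/-- potential hub number `i` for the class `c` -/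
def hubv (c : Fin M) (i : Fin (n / 3)) : Fin n :=
  ⟨3 * i.val + (c.val + 2) % 3, by have := i.2; omega⟩

lemma fail_bound (hM : 0 < M) (h3 : 3 ∣ M) (hn : M ≤ n) {p : ℝ} (h0 : 0 ≤ p) (h1 : p ≤ 1) :
    prodBern ((Fin n × Fin M) ⊕ Sym2 (Fin n)) p {ω | ¬ (gr hM ω).Connected} ≤
      ENNReal.ofReal (M * (1 - p) ^ (n / 3) + M ^ 2 * (1 - p) ^ ((n / M) ^ 2)) := by
  set μ := prodBern ((Fin n × Fin M) ⊕ Sym2 (Fin n)) p with hμ
  have hsub : {ω | ¬ (gr hM ω).Connected} ⊆
      (⋃ c : Fin M, {ω : (Fin n × Fin M) ⊕ Sym2 (Fin n) → Bool |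
        ∀ i : Fin (n / 3), ω (Sum.inl (hubv c i, c)) = false}) ∪
      (⋃ cc : Fin M × Fin M, {ω : (Fin n × Fin M) ⊕ Sym2 (Fin n) → Bool | cc.1 ≠ cc.2 ∧
        ∀ ij : Fin (n / M) × Fin (n / M),
          ω (Sum.inr s(vtx cc.1 ij.1, vtx cc.2 ij.2)) = false}) := by
    intro ω hω
    by_contra hcon
    apply hω
    simp only [Set.mem_union, Set.mem_iUnion, Set.mem_ofPred_eq, not_or, not_exists, not_and,
      not_forall, Bool.not_eq_false] at hcon
    obtain ⟨hA, hB⟩ := hcon
    apply gr_connected hM h3 hn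
    · intro c
      obtain ⟨i, hi⟩ := hA c
      refine ⟨hubv c i, ?_, hi⟩
      simp only [hubv]
      omega
    · intro c c' hc _
      obtain ⟨ij, hij⟩ := hB (c, c') hc
      exact ⟨vtx c ij.1, vtx c' ij.2, cls_vtx hM _ _, cls_vtx hM _ _, hij⟩
  have hA : ∀ c : Fin M, μ {ω | ∀ i : Fin (n / 3), ω (Sum.inl (hubv c i, c)) = false} ≤
      ENNReal.ofReal ((1 - p) ^ (n / 3)) := by
    intro c
    apply prodBern_all_false_le h0 h1 (by simp)
      (fun i : Fin (n / 3) => (Sum.inl (hubv c i, c) : (Fin n × Fin M) ⊕ Sym2 (Fin n)))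
    intro i j hij
    simp only [Sum.inl.injEq, Prod.mk.injEq, and_true, hubv, Fin.mk.injEq] at hij
    exact Fin.ext (by omega)
  have hB : ∀ cc : Fin M × Fin M, μ {ω | cc.1 ≠ cc.2 ∧ ∀ ij : Fin (n / M) × Fin (n / M),
      ω (Sum.inr s(vtx cc.1 ij.1, vtx cc.2 ij.2)) = false} ≤
      ENNReal.ofReal ((1 - p) ^ ((n / M) ^ 2)) := by
    rintro ⟨c, c'⟩
    by_cases hc : c = c'
    · simp [hc]
    · simp only [ne_eq, hc, not_false_eq_true, true_and]
      apply prodBern_all_false_le h0 h1 (by simp [sq])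
        (fun ij : Fin (n / M) × Fin (n / M) =>
          (Sum.inr s(vtx c ij.1, vtx c' ij.2) : (Fin n × Fin M) ⊕ Sym2 (Fin n)))
      rintro ⟨i, j⟩ ⟨i', j'⟩ hij
      simp only [Sum.inr.injEq, Sym2.eq_iff] at hij
      rcases hij with ⟨hi, hj⟩ | ⟨hi, hj⟩
      · rw [vtx_injective c hM hi, vtx_injective c' hM hj]
      · exfalso
        apply hc
        have := congrArg (cls hM) hi
        rwa [cls_vtx, cls_vtx] at this
  have hp : 0 ≤ 1 - p := by linarith
  calc μ {ω | ¬ (gr hM ω).Connected} ≤ _ := measure_mono hsub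
    _ ≤ _ := measure_union_le _ _
    _ ≤ (∑ c : Fin M, ENNReal.ofReal ((1 - p) ^ (n / 3))) +
        ∑ cc : Fin M × Fin M, ENNReal.ofReal ((1 - p) ^ ((n / M) ^ 2)) := by
      gcongr
      · exact (measure_iUnion_fintype_le _ _).trans (Finset.sum_le_sum fun c _ => hA c)
      · exact (measure_iUnion_fintype_le _ _).trans (Finset.sum_le_sum fun c _ => hB c)
    _ = ENNReal.ofReal (M * (1 - p) ^ (n / 3) + M ^ 2 * (1 - p) ^ ((n / M) ^ 2)) := by
      rw [Finset.sum_const, Finset.sum_const, Finset.card_univ, Finset.card_univ,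
        Fintype.card_prod, Fintype.card_fin, nsmul_eq_mul, nsmul_eq_mul,
        ENNReal.ofReal_add (by positivity) (by positivity),
        ENNReal.ofReal_mul (by positivity), ENNReal.ofReal_mul (by positivity)]
      simp [sq]

end Graph

section Asymptotics

/-- number of residue classes -/
noncomputable def numCls (K n : ℕ) : ℕ := 3 * (⌊Real.log n ^ K⌋₊ + 1)

/-- edge probability -/
noncomputable def prb (n : ℕ) : ℝ := min 1 (√(Real.log n) / n)

lemma numCls_pos (K n : ℕ) : 0 < numCls K n := by unfold numCls; omega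

lemma prb_nonneg (n : ℕ) : 0 ≤ prb n := le_min zero_le_one (by positivity)

lemma prb_le_one (n : ℕ) : prb n ≤ 1 := min_le_left _ _

lemma tendsto_log_nat : Tendsto (fun n : ℕ => Real.log n) atTop atTop :=
  Real.tendsto_log_atTop.comp tendsto_natCast_atTop_atTop

lemma tendsto_sqrt_log_nat : Tendsto (fun n : ℕ => √(Real.log n)) atTop atTop :=
  Real.tendsto_sqrt_atTop.comp tendsto_log_nat

lemma eventually_log_pow_le (K : ℕ) {c : ℝ} (hc : 0 < c) :
    ∀ᶠ n : ℕ in atTop, Real.log n ^ K ≤ c * n := by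
  have h := (Real.isLittleO_pow_log_id_atTop (n := K)).comp_tendsto
    (tendsto_natCast_atTop_atTop (R := ℝ))
  have h2 := h.bound hc
  filter_upwards [h2, eventually_ge_atTop 1] with n hn hn1
  simp only [Function.comp_apply, id, norm_pow, Real.norm_natCast] at hn
  refine le_trans ?_ hn
  rw [← norm_pow]
  exact Real.le_norm_self _

lemma numCls_le (K n : ℕ) (_h : 0 ≤ Real.log n) : (numCls K n : ℝ) ≤ 3 * (Real.log n ^ K + 1) := by
  unfold numCls
  push_cast
  have := Nat.floor_le (show 0 ≤ Real.log n ^ K by positivity)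
  linarith

lemma eventually_numCls_sq_le (K : ℕ) : ∀ᶠ n : ℕ in atTop, 4 * numCls K n ^ 2 ≤ n := by
  filter_upwards [eventually_log_pow_le (2 * K) (c := 1 / 144) (by norm_num),
    eventually_log_pow_le K (c := 1 / 144) (by norm_num),
    eventually_ge_atTop 144] with n h1 h2 h3
  have hn : (144 : ℝ) ≤ n := by exact_mod_cast h3
  have hlog : 0 ≤ Real.log n := Real.log_natCast_nonneg n
  have h4 := numCls_le K n hlog
  have h5 : (0 : ℝ) ≤ numCls K n := by positivity
  have h6 : 4 * (numCls K n : ℝ) ^ 2 ≤ 4 * (3 * (Real.log n ^ K + 1)) ^ 2 := by gcongr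
  have h7 : 4 * (3 * (Real.log n ^ K + 1)) ^ 2 =
      36 * (Real.log n ^ (2 * K) + 2 * Real.log n ^ K + 1) := by ring
  have h8 : 4 * (numCls K n : ℝ) ^ 2 ≤ n := by
    rw [h7] at h6
    linarith
  exact_mod_cast h8

lemma sq_div_ge {n M : ℕ} (hM : 0 < M) (h : 4 * M ^ 2 ≤ n) : n ≤ (n / M) ^ 2 := by
  have h1 : M * (n / M) + n % M = n := Nat.div_add_mod n M
  have h2 : n % M < M := Nat.mod_lt _ hM
  have h3 : 4 * M ≤ n / M := by
    rw [Nat.le_div_iff_mul_le hM]
    nlinarith
  have h4 : M ≤ M ^ 2 := Nat.le_self_pow (by norm_num) M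
  nlinarith

lemma one_sub_pow_le {p : ℝ} (h1 : p ≤ 1) (k : ℕ) : (1 - p) ^ k ≤ Real.exp (-(p * k)) := by
  have h2 : 1 - p ≤ Real.exp (-p) := Real.one_sub_le_exp_neg p
  calc (1 - p) ^ k ≤ Real.exp (-p) ^ k := pow_le_pow_left₀ (by linarith) h2 k
    _ = Real.exp (-(p * k)) := by rw [← Real.exp_nat_mul]; ring_nf

lemma eventually_fail_le (K : ℕ) : ∀ᶠ n : ℕ in atTop,
    ((numCls K n : ℝ) * (1 - prb n) ^ (n / 3) +
      (numCls K n : ℝ) ^ 2 * (1 - prb n) ^ ((n / numCls K n) ^ 2)) ≤
    18 * Real.exp 1 * (((√(Real.log n)) ^ (2 * K) + 1) ^ 2 * Real.exp (-(√(Real.log n) / 3))) := by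
  filter_upwards [eventually_numCls_sq_le K, eventually_ge_atTop 3,
    eventually_log_pow_le 1 (c := 1) (by norm_num),
    tendsto_log_nat.eventually_ge_atTop 1] with n h1 h2 h3 h4
  set M := numCls K n with hMdef
  have hMpos : 0 < M := numCls_pos K n
  have hn3 : (3 : ℝ) ≤ n := by exact_mod_cast h2
  have hn0 : (0 : ℝ) < n := by linarith
  set x := √(Real.log n) with hx
  have hx1 : 1 ≤ x := by rw [hx]; exact Real.one_le_sqrt.mpr h4
  have hxx : x ^ 2 = Real.log n := Real.sq_sqrt (by linarith)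
  have hxn : x ≤ n := by
    have : x ≤ x ^ 2 := by nlinarith
    rw [hxx] at this
    simp only [pow_one, one_mul] at h3
    linarith
  have hp : prb n = x / n := by
    unfold prb
    rw [min_eq_right]
    rw [div_le_one hn0]
    exact hxn
  have hp0 := prb_nonneg n
  have hp1 := prb_le_one n
  -- exponents
  have hk1 : (n : ℝ) / 3 - 1 ≤ ((n / 3 : ℕ) : ℝ) := by
    have : n < 3 * (n / 3) + 3 := by omega
    have : (n : ℝ) < 3 * ((n / 3 : ℕ) : ℝ) + 3 := by exact_mod_cast this
    linarith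
  have hk2 : (n : ℝ) / 3 - 1 ≤ (((n / M) ^ 2 : ℕ) : ℝ) := by
    have h5 := sq_div_ge hMpos h1
    have h6 : (n : ℝ) ≤ (((n / M) ^ 2 : ℕ) : ℝ) := by exact_mod_cast h5
    linarith
  have key : ∀ k : ℕ, (n : ℝ) / 3 - 1 ≤ (k : ℝ) →
      (1 - prb n) ^ k ≤ Real.exp 1 * Real.exp (-(x / 3)) := by
    intro k hk
    refine (one_sub_pow_le hp1 k).trans ?_
    rw [← Real.exp_add]
    apply Real.exp_le_exp.mpr
    have h7 : prb n * ((n : ℝ) / 3 - 1) ≤ prb n * k := mul_le_mul_of_nonneg_left hk hp0
    have h8 : prb n * ((n : ℝ) / 3 - 1) = x / 3 - prb n := by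
      rw [hp]; field_simp
    linarith
  have hE : 0 ≤ Real.exp 1 * Real.exp (-(x / 3)) := by positivity
  have hM1 : (1 : ℝ) ≤ M := by exact_mod_cast hMpos
  have hMM : (M : ℝ) ≤ (M : ℝ) ^ 2 := by nlinarith
  have hMle : (M : ℝ) ≤ 3 * (x ^ (2 * K) + 1) := by
    have := numCls_le K n (by linarith)
    rw [pow_mul, hxx]
    exact this
  have hMsq : (M : ℝ) ^ 2 ≤ (3 * (x ^ (2 * K) + 1)) ^ 2 := by gcongr
  calc (M : ℝ) * (1 - prb n) ^ (n / 3) + (M : ℝ) ^ 2 * (1 - prb n) ^ ((n / M) ^ 2)
      ≤ (M : ℝ) ^ 2 * (Real.exp 1 * Real.exp (-(x / 3))) +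
        (M : ℝ) ^ 2 * (Real.exp 1 * Real.exp (-(x / 3))) := by
        apply add_le_add
        · apply mul_le_mul hMM (key _ hk1) (pow_nonneg (by linarith) _) (by positivity)
        · apply mul_le_mul_of_nonneg_left (key _ hk2) (by positivity)
    _ = 2 * (Real.exp 1 * Real.exp (-(x / 3))) * (M : ℝ) ^ 2 := by ring
    _ ≤ 2 * (Real.exp 1 * Real.exp (-(x / 3))) * (3 * (x ^ (2 * K) + 1)) ^ 2 := by gcongr
    _ = _ := by ring

lemma tendsto_pow_exp (m : ℕ) :
    Tendsto (fun x : ℝ => x ^ m * Real.exp (-(x / 3))) atTop (𝓝 0) := by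
  have h := (Real.tendsto_pow_mul_exp_neg_atTop_nhds_zero m).comp
    (tendsto_id.atTop_div_const (show (0 : ℝ) < 3 by norm_num))
  have h2 := h.const_mul ((3 : ℝ) ^ m)
  rw [mul_zero] at h2
  refine h2.congr ?_
  intro x
  simp only [Function.comp_apply, id]
  rw [div_pow]
  field_simp

lemma tendsto_bound (K : ℕ) : Tendsto (fun n : ℕ =>
    18 * Real.exp 1 * (((√(Real.log n)) ^ (2 * K) + 1) ^ 2 * Real.exp (-(√(Real.log n) / 3))))
    atTop (𝓝 0) := by
  have h : Tendsto (fun x : ℝ => 18 * Real.exp 1 * ((x ^ (2 * K) + 1) ^ 2 * Real.exp (-(x / 3))))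
      atTop (𝓝 0) := by
    have h1 := ((tendsto_pow_exp (4 * K)).add
      ((tendsto_pow_exp (2 * K)).const_mul 2)).add (tendsto_pow_exp 0)
    have h2 := h1.const_mul (18 * Real.exp 1)
    simp only [mul_zero, add_zero] at h2
    refine h2.congr ?_
    intro x
    ring
  exact h.comp tendsto_sqrt_log_nat

end Asymptotics

/-- **Disproof of Q1 of MP_b3d828_pr.**  For every `K` there are `d(n) = O(n / (ln n)^K)`,
`p(n) = o(ln n / n)` with `p(n) ∈ [0,1]`, and random graphs `G_n ∼ G_{n,p(n),d(n)}` (for all `n`)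
with `Pr(G_n is connected) → 1`.  The case `K = 1` is the negated form of Q1 (with the limit `1`
instead of a positive limsup). -/
theorem result (K : ℕ) :
    ∃ (d : ℕ → ℕ) (p : ℕ → ℝ) (Ω : ℕ → Type) (mΩ : ∀ n, MeasurableSpace (Ω n))
      (μ : ∀ n, Measure (Ω n)) (G : ∀ n, Ω n → SimpleGraph (Fin n)),
      (fun n => (d n : ℝ)) =O[atTop] (fun n : ℕ => (n : ℝ) / Real.log n ^ K) ∧
      p =o[atTop] (fun n : ℕ => Real.log n / n) ∧
      (∀ n, 0 ≤ p n ∧ p n ≤ 1) ∧
      (∀ n, IsDependentRandomGraph (μ n) n (d n) (p n) (G n)) ∧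
      Tendsto (fun n => μ n {ω | (G n ω).Connected}) atTop (𝓝 1) := by
  refine ⟨fun n => n / numCls K n, prb,
    fun n => ((Fin n × Fin (numCls K n)) ⊕ Sym2 (Fin n) → Bool), fun n => inferInstance,
    fun n => prodBern ((Fin n × Fin (numCls K n)) ⊕ Sym2 (Fin n)) (prb n),
    fun n => gr (numCls_pos K n), ?_, ?_, fun n => ⟨prb_nonneg n, prb_le_one n⟩,
    fun n => gr_isDependent (numCls_pos K n) le_rfl (prb_nonneg n) (prb_le_one n), ?_⟩
  · -- `d = O(n / (log n)^K)`
    apply IsBigO.of_bound 1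
    filter_upwards [tendsto_log_nat.eventually_ge_atTop 1] with n hn
    have hL : 0 < Real.log n ^ K := by positivity
    rw [Real.norm_of_nonneg (by positivity), Real.norm_of_nonneg (by positivity), one_mul]
    calc ((n / numCls K n : ℕ) : ℝ) ≤ (n : ℝ) / (numCls K n : ℝ) := Nat.cast_div_le
      _ ≤ (n : ℝ) / Real.log n ^ K := by
        apply div_le_div_of_nonneg_left (by positivity) hL
        unfold numCls
        push_cast
        have := Nat.lt_floor_add_one (Real.log n ^ K)
        linarith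
  · -- `p = o(log n / n)`
    rw [isLittleO_iff]
    intro c hc
    filter_upwards [tendsto_sqrt_log_nat.eventually_ge_atTop (1 / c),
      tendsto_log_nat.eventually_ge_atTop 1, eventually_ge_atTop 1] with n h1 h2 h3
    have hn0 : (0 : ℝ) < n := by exact_mod_cast h3
    rw [Real.norm_of_nonneg (prb_nonneg n), Real.norm_of_nonneg (by positivity)]
    have h4 : prb n ≤ √(Real.log n) / n := min_le_right _ _
    refine h4.trans ?_
    rw [← mul_div_assoc]
    apply div_le_div_of_nonneg_right _ hn0.le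
    have h5 : 1 ≤ c * √(Real.log n) := by
      rw [div_le_iff₀ hc] at h1
      linarith
    have h6 : √(Real.log n) * √(Real.log n) = Real.log n := Real.mul_self_sqrt (by linarith)
    nlinarith [Real.sqrt_nonneg (Real.log n)]
  · -- connectivity
    have hlow : Tendsto (fun n : ℕ => 1 - ENNReal.ofReal (18 * Real.exp 1 *
        (((√(Real.log n)) ^ (2 * K) + 1) ^ 2 * Real.exp (-(√(Real.log n) / 3)))))
        atTop (𝓝 1) := by
      have h1 := (ENNReal.continuous_ofReal.tendsto 0).comp (tendsto_bound K)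
      rw [ENNReal.ofReal_zero] at h1
      have h2 := ENNReal.Tendsto.sub (tendsto_const_nhds (x := (1 : ENNReal))) h1
        (Or.inl ENNReal.one_ne_top)
      simpa using h2
    refine tendsto_of_tendsto_of_tendsto_of_le_of_le' hlow tendsto_const_nhds ?_ ?_
    · filter_upwards [eventually_fail_le K, eventually_numCls_sq_le K] with n h1 h2
      have := prodBern_isProb (Γ := (Fin n × Fin (numCls K n)) ⊕ Sym2 (Fin n))
        (prb_nonneg n) (prb_le_one n)
      have hMn : numCls K n ≤ n := by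
        have h4 : numCls K n ≤ numCls K n ^ 2 := Nat.le_self_pow (by norm_num) _
        omega
      have h3 := fail_bound (n := n) (numCls_pos K n) (Dvd.intro _ rfl) hMn
        (prb_nonneg n) (prb_le_one n)
      have h5 : {ω | (gr (n := n) (numCls_pos K n) ω).Connected} =
          {ω | ¬ (gr (n := n) (numCls_pos K n) ω).Connected}ᶜ := by
        ext ω; simp
      rw [h5, prob_compl_eq_one_sub (Set.toFinite _).measurableSet]
      exact tsub_le_tsub_left (h3.trans (ENNReal.ofReal_le_ofReal h1)) 1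
    · filter_upwards with n
      have := prodBern_isProb (Γ := (Fin n × Fin (numCls K n)) ⊕ Sym2 (Fin n))
        (prb_nonneg n) (prb_le_one n)
      exact prob_le_one

end Pool.Agent.Results.MP_b3d828_pr.Disproof
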